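import Pool.Agent.L0h86.GQ.Stm

/-!
# Project GQ, module STEP: from the two characters to the quadratic extension
-/

set_option autoImplicit false
set_option linter.all false

namespace Pool.Agent.L0h34.GQ

open Pool.Agent.Y715.Gi (QB KK GK ev lam)
open Pool.Agent.R384
open Pool.Agent.L0h86.GQ (VanG S_STEP)

theorem t_STEP : S_STEP := by
  intro i₀ χ ε G' hop h1 h2
  by_cases hG : ∃ t ∈ G', ε t = -1
  · obtain ⟨t, ht, hε⟩ := hG
    intro c hc hodd hstr
    have hc' : ∀ σ ∈ kr ε G', ∀ τ ∈ kr ε G', c (σ * τ) = c σ + vl (χ * sgc ε) σ * c τ := by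
      intro σ hσ τ hτ
      rw [vl_sgc_pos (mem_kr.1 hσ).2]
      exact hc.mul σ hσ τ hτ
    obtain ⟨y₁, hy₁⟩ := h1 (cor χ ε t c) ⟨cor_cont ht hε hop hc.cont,
        fun σ hσ τ hτ => cor_mul ht hε hc.mul hσ hτ⟩ (by
      intro p _ ι hp
      obtain ⟨y, hy⟩ := hodd p ι hp
      obtain ⟨y', hy'⟩ := hodd p (cι ι t) hp
      exact cor_loc (I := IIs ι) ht hε hc.mul (fun σ h3 h4 => hy σ h3 h4) (fun σ h3 h4 => by
        rw [hy' _ (II_conj h3) (conj_kr ht hε h4), vl_conj])) (by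
      intro ι
      obtain ⟨y, hy⟩ := hstr ι
      obtain ⟨y', hy'⟩ := hstr (cι ι t)
      exact cor_loc (I := DDs ι) ht hε hc.mul (fun σ h3 h4 => hy σ h3 h4) (fun σ h3 h4 => by
        rw [hy' _ (DD_conj h3) (conj_kr ht hε h4), vl_conj]))
    obtain ⟨y₂, hy₂⟩ := h2 (cor (χ * sgc ε) ε t c) ⟨cor_cont ht hε hop hc.cont,
        fun σ hσ τ hτ => cor_mul ht hε hc' hσ hτ⟩ (by
      intro p _ ι hp
      obtain ⟨y, hy⟩ := hodd p ι hp
      obtain ⟨y', hy'⟩ := hodd p (cι ι t) hp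
      exact cor_loc (I := IIs ι) ht hε hc' (fun σ h3 h4 => by
        rw [vl_sgc_pos (mem_kr.1 h4).2]
        exact hy σ h3 h4) (fun σ h3 h4 => by
        rw [vl_sgc_pos (mem_kr.1 h4).2, hy' _ (II_conj h3) (conj_kr ht hε h4), vl_conj])) (by
      intro ι
      obtain ⟨y, hy⟩ := hstr ι
      obtain ⟨y', hy'⟩ := hstr (cι ι t)
      exact cor_loc (I := DDs ι) ht hε hc' (fun σ h3 h4 => by
        rw [vl_sgc_pos (mem_kr.1 h4).2]
        exact hy σ h3 h4) (fun σ h3 h4 => by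
        rw [vl_sgc_pos (mem_kr.1 h4).2, hy' _ (DD_conj h3) (conj_kr ht hε h4), vl_conj]))
    refine ⟨(y₁ + y₂) / 2, fun σ hσ => ?_⟩
    obtain ⟨g1, g2⟩ := mem_kr.1 hσ
    have e1 := hy₁ σ g1
    have e2 := hy₂ σ g1
    unfold cor at e1 e2
    rw [if_pos g2] at e1 e2
    rw [vl_sgc_neg hε, vl_sgc_pos g2] at e2
    have h2 : (2 : ℚ_[2]) ≠ 0 := two_ne_zero
    field_simp
    linear_combination e1 + e2
  · push Not at hG
    have e : kr ε G' = G' := by
      ext σ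
      constructor
      · exact fun h => (mem_kr.1 h).1
      · intro h
        refine mem_kr.2 ⟨h, ?_⟩
        rcases Int.units_eq_one_or (ε σ) with h3 | h3
        · exact h3
        · exact absurd h3 (hG σ h)
    rwa [e]

end Pool.Agent.L0h34.GQ

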